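import Pool.Agent.Lib.P2a19da.Defs

/-!
A rational set of matrices over an algebraically closed field which is not contained in a
hypersurface contains the complement of a hypersurface.
-/

set_option autoImplicit false

namespace Pool.Agent.P2a19da

open Module MvPolynomial

/-- a ring homomorphism of finite presentation between domains which is injective: the image on
spectra contains a principal open set -/
lemma exists_basic {R S : Type*} [CommRing R] [IsDomain R] [CommRing S] [IsDomain S] (θ : R →+* S)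
    (hf : θ.FinitePresentation) (hi : Function.Injective θ) :
    ∃ f : R, f ≠ 0 ∧ ∀ m : PrimeSpectrum R, f ∉ m.asIdeal →
      ∃ n : PrimeSpectrum S, PrimeSpectrum.comap θ n = m := by
  obtain ⟨D, hD⟩ := PrimeSpectrum.exists_constructibleSetData_iff.mpr
    (PrimeSpectrum.isConstructible_range_comap hf)
  have hbot : (⟨⊥, Ideal.isPrime_bot⟩ : PrimeSpectrum R) ∈ Set.range (PrimeSpectrum.comap θ) := by
    refine ⟨⟨⊥, Ideal.isPrime_bot⟩, ?_⟩
    ext x
    change θ x ∈ (⊥ : Ideal S) ↔ x ∈ (⊥ : Ideal R)
    rw [Ideal.mem_bot, Ideal.mem_bot, map_eq_zero_iff θ hi]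
  rw [← hD, PrimeSpectrum.ConstructibleSetData.toSet, Set.mem_iUnion₂] at hbot
  obtain ⟨C, hC, hC1, hC2⟩ := hbot
  rw [PrimeSpectrum.mem_zeroLocus] at hC1 hC2
  refine ⟨C.f, ?_, fun m hm => ?_⟩
  · intro h
    apply hC2
    intro x hx
    rw [Set.mem_singleton_iff] at hx
    rw [hx, h]
    exact Ideal.zero_mem _
  · have h1 : m ∈ D.toSet := by
      rw [PrimeSpectrum.ConstructibleSetData.toSet, Set.mem_iUnion₂]
      refine ⟨C, hC, ?_, ?_⟩
      · rw [PrimeSpectrum.mem_zeroLocus]
        intro x hx
        have h2 := hC1 hx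
        have h3 : x = 0 := h2
        rw [h3]
        exact Ideal.zero_mem _
      · rw [PrimeSpectrum.mem_zeroLocus]
        intro h
        exact hm (h (Set.mem_singleton _))
    rw [hD] at h1
    exact h1

theorem chevalley {F : Type*} [Field F] [IsAlgClosed F] {r : ℕ}
    {Z : Set (Matrix (Fin r) (Fin r) F)} (hZ : RatSet Z) (h0 : van Z = ⊥) :
    ∃ f : MvPolynomial (Fin r × Fin r) F, f ≠ 0 ∧
      ∀ M : Matrix (Fin r) (Fin r) F, ev M f ≠ 0 → M ∈ Z := by
  obtain ⟨N, P, q, d, hd, hdq, rfl⟩ := hZ
  have hq : q ≠ 0 := by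
    intro h
    apply hd
    apply MvPolynomial.funext
    intro t
    rw [map_zero]
    by_contra h1
    have := hdq t h1
    rw [h, map_zero] at this
    exact this rfl
  have hqd : q * d ≠ 0 := mul_ne_zero hq hd
  let S := Localization.Away (q * d)
  have hle : Submonoid.powers (q * d) ≤ nonZeroDivisors (MvPolynomial (Fin N) F) :=
    powers_le_nonZeroDivisors_of_noZeroDivisors hqd
  have : IsDomain S := IsLocalization.isDomain_of_le_nonZeroDivisors S hle
  let u : MvPolynomial (Fin N) F →ₐ[F] S := IsScalarTower.toAlgHom F (MvPolynomial (Fin N) F) S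
  have hu : IsUnit (u (q * d)) := IsLocalization.Away.algebraMap_isUnit (q * d)
  have huq : IsUnit (u q) := by
    rw [map_mul] at hu
    exact isUnit_of_mul_isUnit_left hu
  obtain ⟨w, hw⟩ := huq.exists_right_inv
  let θ : MvPolynomial (Fin r × Fin r) F →ₐ[F] S := aeval (fun p => u (P p.1 p.2) * w)
  have hθX : ∀ p, θ (X p) = u (P p.1 p.2) * w := fun p => aeval_X _ p
  -- injectivity
  have hinj : Function.Injective θ := by
    rw [injective_iff_map_eq_zero]
    intro f hf
    have h1 : f ∈ van {M : Matrix (Fin r) (Fin r) F | ∃ t : Fin N → F, eval t d ≠ 0 ∧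
        ∀ i j, M i j * eval t q = eval t (P i j)} := by
      rintro M ⟨t, ht, hM⟩
      have hg : IsUnit ((eval t : MvPolynomial (Fin N) F →+* F) (q * d)) := by
        rw [map_mul]
        exact isUnit_iff_ne_zero.2 (mul_ne_zero (hdq t ht) ht)
      let φ : S →+* F := IsLocalization.Away.lift (q * d) hg
      have hφ : ∀ p, φ (u p) = eval t p := fun p => IsLocalization.Away.lift_eq (q * d) hg p
      have h2 : eval t q * φ w = 1 := by
        rw [← hφ, ← map_mul, hw, map_one]
      have h3 : φ.comp (θ : MvPolynomial (Fin r × Fin r) F →+* S) =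
          (eval (fun p => M p.1 p.2) : MvPolynomial (Fin r × Fin r) F →+* F) := by
        apply MvPolynomial.ringHom_ext
        · intro c
          have h4 : θ (C c) = u (C c) := by
            rw [← MvPolynomial.algebraMap_eq, ← MvPolynomial.algebraMap_eq, AlgHom.commutes,
              AlgHom.commutes]
          change φ (θ (C c)) = _
          rw [h4, hφ, eval_C, eval_C]
        · intro p
          change φ (θ (X p)) = _
          rw [hθX, map_mul, hφ, eval_X, ← hM]
          rw [mul_assoc, h2, mul_one]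
      have h5 := RingHom.congr_fun h3 f
      change φ (θ f) = ev M f at h5
      rw [← h5, hf, map_zero]
    rw [h0] at h1
    exact h1
  -- finite presentation
  have hfin : Algebra.FiniteType F S := by
    have h1 : Algebra.FinitePresentation (MvPolynomial (Fin N) F) S :=
      IsLocalization.Away.finitePresentation (q * d)
    exact Algebra.FiniteType.trans (S := MvPolynomial (Fin N) F) inferInstance inferInstance
  have hfp : (θ : MvPolynomial (Fin r × Fin r) F →+* S).FinitePresentation := by
    rw [← RingHom.FinitePresentation.of_finiteType]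
    have h1 : ((θ : MvPolynomial (Fin r × Fin r) F →+* S).comp (algebraMap F _)).FiniteType := by
      have h2 : (θ : MvPolynomial (Fin r × Fin r) F →+* S).comp (algebraMap F _) =
          algebraMap F S := by
        ext c
        exact θ.commutes c
      rw [h2]
      exact RingHom.finiteType_algebraMap.2 hfin
    exact RingHom.FiniteType.of_comp_finiteType h1
  obtain ⟨f, hf0, hf⟩ := exists_basic _ hfp hinj
  refine ⟨f, hf0, fun M hM => ?_⟩
  obtain ⟨n, hn⟩ := hf ⟨RingHom.ker (eval (fun p : Fin r × Fin r => M p.1 p.2)),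
    RingHom.ker_isPrime _⟩ hM
  obtain ⟨𝔫, h𝔫, hle'⟩ := Ideal.exists_le_maximal n.asIdeal n.isPrime.ne_top
  let _ : Field (S ⧸ 𝔫) := Ideal.Quotient.field 𝔫
  have hft : Algebra.FiniteType F (S ⧸ 𝔫) :=
    Algebra.FiniteType.of_surjective (Ideal.Quotient.mkₐ F 𝔫) Ideal.Quotient.mk_surjective
  have hmf : Module.Finite F (S ⧸ 𝔫) := finite_of_finite_type_of_isJacobsonRing F (S ⧸ 𝔫)
  have hbij : Function.Bijective (algebraMap F (S ⧸ 𝔫)) :=
    IsAlgClosed.algebraMap_bijective_of_isIntegral
  let e : F ≃ₐ[F] (S ⧸ 𝔫) := AlgEquiv.ofBijective (Algebra.ofId F (S ⧸ 𝔫)) hbij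
  let ψ : S →ₐ[F] F := (e.symm : (S ⧸ 𝔫) →ₐ[F] F).comp (Ideal.Quotient.mkₐ F 𝔫)
  have hψ0 : ∀ s ∈ 𝔫, ψ s = 0 := by
    intro s hs
    change e.symm (Ideal.Quotient.mk 𝔫 s) = 0
    rw [Ideal.Quotient.eq_zero_iff_mem.2 hs, map_zero]
  let t : Fin N → F := fun i => ψ (u (X i))
  have hψ : ∀ p, ψ (u p) = eval t p := by
    intro p
    have h1 : ψ.comp u = aeval t := by
      apply MvPolynomial.algHom_ext
      intro i
      rw [aeval_X]
      rfl
    have h2 := AlgHom.congr_fun h1 p
    rw [AlgHom.comp_apply] at h2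
    exact h2.trans (RingHom.congr_fun (MvPolynomial.coe_aeval_eq_eval t) p)
  have hdt : eval t d ≠ 0 := by
    have h1 : IsUnit (ψ (u (q * d))) := hu.map ψ
    rw [hψ, map_mul] at h1
    exact right_ne_zero_of_mul h1.ne_zero
  have hwt : eval t q * ψ w = 1 := by
    rw [← hψ, ← map_mul, hw, map_one]
  refine ⟨t, hdt, fun i j => ?_⟩
  have h1 : θ (X (i, j) - C (M i j)) ∈ 𝔫 := by
    apply hle'
    have h2 : (X (i, j) - C (M i j) : MvPolynomial (Fin r × Fin r) F) ∈
        (PrimeSpectrum.comap (θ : MvPolynomial (Fin r × Fin r) F →+* S) n).asIdeal := by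
      rw [hn]
      change eval (fun p : Fin r × Fin r => M p.1 p.2) (X (i, j) - C (M i j)) = 0
      rw [map_sub, eval_X, eval_C, sub_self]
    exact h2
  have h2 := hψ0 _ h1
  rw [map_sub, map_sub, hθX, map_mul, hψ, ← MvPolynomial.algebraMap_eq, AlgHom.commutes,
    AlgHom.commutes, sub_eq_zero] at h2
  have h3 : eval t (P i j) * ψ w = M i j := h2
  rw [← h3, mul_assoc, mul_comm (ψ w), hwt, mul_one]

end Pool.Agent.P2a19da
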