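import Pool.Agent.Lib.P2a19da.Defs

/-!
A subgroup of `GL (Fin r) F` with cyclic quotient is everything, `F` algebraically closed.
-/

set_option autoImplicit false

namespace Pool.Agent.P2a19da

open Module MvPolynomial

/-- a homomorphism from a divisible group to a cyclic group is trivial -/
lemma trivial_of_divisible {A Q : Type*} [Group A] [Group Q] (φ : A →* Q)
    (hdiv : ∀ (n : ℕ), 0 < n → ∀ a : A, ∃ b, b ^ n = a)
    (c : Q) (hc : ∀ q : Q, ∃ j : ℤ, q = c ^ j) (a : A) : φ a = 1 := by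
  by_cases hfin : ∃ n : ℕ, 0 < n ∧ c ^ n = 1
  · obtain ⟨n, hn, hcn⟩ := hfin
    obtain ⟨b, rfl⟩ := hdiv n hn a
    obtain ⟨k, hk⟩ := hc (φ b)
    rw [map_pow, hk, ← zpow_natCast, ← zpow_mul, mul_comm, zpow_mul, zpow_natCast, hcn, one_zpow]
  · push Not at hfin
    obtain ⟨m, hm⟩ := hc (φ a)
    have hinj : ∀ i : ℤ, c ^ i = 1 → i = 0 := by
      intro i hi
      by_contra hne
      have h1 : c ^ i.natAbs = 1 := by
        rcases Int.natAbs_eq i with h | h
        · rw [h, zpow_natCast] at hi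
          exact hi
        · rw [h, zpow_neg, zpow_natCast, inv_eq_one] at hi
          exact hi
      exact hfin i.natAbs (Int.natAbs_pos.2 hne) h1
    obtain ⟨b, hb⟩ := hdiv (m.natAbs + 1) (Nat.succ_pos _) a
    obtain ⟨k, hk⟩ := hc (φ b)
    have h2 : c ^ (k * ((m.natAbs + 1 : ℕ) : ℤ) - m) = 1 := by
      rw [zpow_sub, zpow_mul, ← hk, zpow_natCast, ← map_pow, hb, ← hm, mul_inv_cancel]
    have h3 := hinj _ h2
    have hk0 : k = 0 := by
      by_contra hk0
      have h6 : m = k * ((m.natAbs + 1 : ℕ) : ℤ) := by linarith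
      have h4 : m.natAbs = k.natAbs * (m.natAbs + 1) := by
        have h7 := congrArg Int.natAbs h6
        rw [Int.natAbs_mul, Int.natAbs_natCast] at h7
        exact h7
      have h5 : 1 ≤ k.natAbs := Int.natAbs_pos.2 hk0
      have h8 := Nat.mul_le_mul_right (m.natAbs + 1) h5
      rw [one_mul, ← h4] at h8
      omega
    have hm0 : m = 0 := by
      rw [hk0, zero_mul] at h3
      linarith
    rw [hm, hm0, zpow_zero]

section

variable {F : Type*} [Field F] {r : ℕ}

/-- diagonal matrices -/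
noncomputable def dg : (Fin r → Fˣ) →* GL (Fin r) F where
  toFun d := ⟨Matrix.diagonal fun i => (d i : F), Matrix.diagonal fun i => (((d i)⁻¹ : Fˣ) : F),
    by rw [Matrix.diagonal_mul_diagonal]; simp, by rw [Matrix.diagonal_mul_diagonal]; simp⟩
  map_one' := by
    apply Units.ext
    simp
  map_mul' a b := by
    apply Units.ext
    simp [Matrix.diagonal_mul_diagonal]

lemma dg_coe (d : Fin r → Fˣ) :
    ((dg d : GL (Fin r) F) : Matrix (Fin r) (Fin r) F) = Matrix.diagonal fun i => (d i : F) := rfl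

/-- transvections -/
noncomputable def tr (i j : Fin r) (hij : i ≠ j) (c : F) : GL (Fin r) F :=
  ⟨Matrix.transvection i j c, Matrix.transvection i j (-c),
    by rw [Matrix.transvection_mul_transvection_same _ _ hij]; simp,
    by rw [Matrix.transvection_mul_transvection_same _ _ hij]; simp⟩

lemma tr_coe (i j : Fin r) (hij : i ≠ j) (c : F) :
    ((tr i j hij c : GL (Fin r) F) : Matrix (Fin r) (Fin r) F) = Matrix.transvection i j c := rfl

lemma tr_add (i j : Fin r) (hij : i ≠ j) (c d : F) :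
    tr i j hij (c + d) = tr i j hij c * tr i j hij d := by
  apply Units.ext
  rw [Units.val_mul, tr_coe, tr_coe, tr_coe, Matrix.transvection_mul_transvection_same _ _ hij]

lemma dg_tr (i j : Fin r) (hij : i ≠ j) (l : Fˣ) (c : F) :
    dg (Pi.mulSingle i l) * tr i j hij c = tr i j hij (l * c) * dg (Pi.mulSingle i l) := by
  apply Units.ext
  rw [Units.val_mul, Units.val_mul, tr_coe, tr_coe, dg_coe]
  have hj : (Pi.mulSingle i l : Fin r → Fˣ) j = 1 := by simp [Pi.mulSingle, hij.symm]
  have hi : (Pi.mulSingle i l : Fin r → Fˣ) i = l := by simp [Pi.mulSingle]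
  ext a b
  rw [Matrix.diagonal_mul, Matrix.mul_diagonal]
  simp only [Matrix.transvection, Matrix.add_apply, Matrix.single_apply, Matrix.one_apply]
  by_cases hab : i = a ∧ j = b
  · obtain ⟨rfl, rfl⟩ := hab
    simp [hij, hi, hj]
  · by_cases hab' : a = b
    · subst hab'
      simp [hab]
    · simp [hab, hab']

end

theorem all_of_cyclic {F : Type*} [Field F] [IsAlgClosed F] {r : ℕ} (W : Subgroup (GL (Fin r) F))
    (y : GL (Fin r) F) (hn : ∀ w ∈ W, y * w * y⁻¹ ∈ W) (hn' : ∀ w ∈ W, y⁻¹ * w * y ∈ W)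
    (h : ∀ g : GL (Fin r) F, ∃ w ∈ W, ∃ j : ℤ, g = w * y ^ j) : W = ⊤ := by
  have hpow : ∀ n : ℕ, ∀ w ∈ W, y ^ n * w * (y ^ n)⁻¹ ∈ W := by
    intro n
    induction n with
    | zero => intro w hw; simpa using hw
    | succ n ih =>
      intro w hw
      have h1 := hn _ (ih w hw)
      have h2 : y ^ (n + 1) * w * (y ^ (n + 1))⁻¹ = y * (y ^ n * w * (y ^ n)⁻¹) * y⁻¹ := by
        rw [pow_succ']
        group
      rw [h2]
      exact h1
  have hpow' : ∀ n : ℕ, ∀ w ∈ W, (y ^ n)⁻¹ * w * y ^ n ∈ W := by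
    intro n
    induction n with
    | zero => intro w hw; simpa using hw
    | succ n ih =>
      intro w hw
      have h1 := hn' _ (ih w hw)
      have h2 : (y ^ (n + 1))⁻¹ * w * y ^ (n + 1) = y⁻¹ * ((y ^ n)⁻¹ * w * y ^ n) * y := by
        rw [pow_succ]
        group
      rw [h2]
      exact h1
  have hnz : ∀ (j : ℤ), ∀ w ∈ W, y ^ j * w * (y ^ j)⁻¹ ∈ W := by
    intro j w hw
    rcases Int.eq_nat_or_neg j with ⟨n, rfl | rfl⟩
    · rw [zpow_natCast]
      exact hpow n w hw
    · rw [zpow_neg, zpow_natCast, inv_inv]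
      exact hpow' n w hw
  have hN : W.Normal := ⟨fun w hw g => by
    obtain ⟨w', hw', j, rfl⟩ := h g
    have h1 := W.mul_mem (W.mul_mem hw' (hnz j w hw)) (W.inv_mem hw')
    have h2 : w' * y ^ j * w * (w' * y ^ j)⁻¹ = w' * (y ^ j * w * (y ^ j)⁻¹) * w'⁻¹ := by
      group
    rw [h2]
    exact h1⟩
  -- all diagonal matrices
  have hdg : ∀ d : Fin r → Fˣ, (dg d : GL (Fin r) F) ∈ W := by
    intro d
    rw [← QuotientGroup.eq_one_iff]
    refine trivial_of_divisible ((QuotientGroup.mk' W).comp dg) ?_ (QuotientGroup.mk' W y) ?_ d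
    · intro n hn0 a
      have h1 : ∀ i, ∃ z : Fˣ, z ^ n = a i := by
        intro i
        obtain ⟨z, hz⟩ := IsAlgClosed.exists_pow_nat_eq (a i : F) hn0
        have hz0 : z ≠ 0 := by
          rintro rfl
          rw [zero_pow hn0.ne'] at hz
          exact (a i).ne_zero hz.symm
        exact ⟨Units.mk0 z hz0, Units.ext (by simpa using hz)⟩
      choose b hb using h1
      exact ⟨b, funext hb⟩
    · intro q
      obtain ⟨g, rfl⟩ := QuotientGroup.mk'_surjective W q
      obtain ⟨w, hw, j, rfl⟩ := h g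
      refine ⟨j, ?_⟩
      have h1 : QuotientGroup.mk' W w = 1 := (QuotientGroup.eq_one_iff w).2 hw
      rw [map_mul, map_zpow, h1, one_mul]
  -- all transvections
  classical
  obtain ⟨l, hl⟩ : ∃ l : F, l ∉ ({0, 1} : Finset F) := by
    have : Infinite F := IsAlgClosed.instInfinite
    exact Infinite.exists_notMem_finset _
  have hl0 : l ≠ 0 := by
    rintro rfl
    exact hl (by simp)
  have hl1 : l - 1 ≠ 0 := by
    intro h0
    apply hl
    rw [sub_eq_zero] at h0
    simp [h0]
  have htr : ∀ (i j : Fin r) (hij : i ≠ j) (c : F), tr i j hij c ∈ W := by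
    intro i j hij c
    let l' : Fˣ := Units.mk0 l hl0
    have hD : (dg (Pi.mulSingle i l') : GL (Fin r) F) ∈ W := hdg _
    set D : GL (Fin r) F := dg (Pi.mulSingle i l') with hDd
    set T : GL (Fin r) F := tr i j hij (c / (l - 1)) with hTd
    have h1 : D * T = tr i j hij (l * (c / (l - 1))) * D := dg_tr i j hij l' (c / (l - 1))
    have h2 : tr i j hij (l * (c / (l - 1))) = tr i j hij c * T := by
      rw [hTd, ← tr_add]
      congr 1
      field_simp
      ring
    have h3 : tr i j hij c = D * (T * D⁻¹ * T⁻¹) := by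
      rw [h2] at h1
      have h4 : tr i j hij c = D * T * D⁻¹ * T⁻¹ := by
        rw [h1]
        group
      rw [h4]
      group
    rw [h3]
    exact W.mul_mem hD (hN.conj_mem _ (W.inv_mem hD) T)
  rw [eq_top_iff]
  intro g _
  have key : ∃ g' ∈ W, (g' : Matrix (Fin r) (Fin r) F) = g := by
    apply Matrix.diagonal_transvection_induction_of_det_ne_zero
      (P := fun M => ∃ g' ∈ W, ((g' : GL (Fin r) F) : Matrix (Fin r) (Fin r) F) = M)
    · exact g.isUnit.map Matrix.detMonoidHom |>.ne_zero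
    · intro d hd
      rw [Matrix.det_diagonal, Finset.prod_ne_zero_iff] at hd
      exact ⟨dg fun i => Units.mk0 (d i) (hd i (Finset.mem_univ i)), hdg _, rfl⟩
    · intro t
      exact ⟨tr t.i t.j t.hij t.c, htr _ _ _ _, rfl⟩
    · rintro A B _ _ ⟨a, ha, rfl⟩ ⟨b, hb, rfl⟩
      exact ⟨a * b, W.mul_mem ha hb, rfl⟩
  obtain ⟨g', hg', e⟩ := key
  have h5 : g' = g := Units.ext e
  rw [← h5]
  exact hg'

end Pool.Agent.P2a19da
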