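import Pool.Agent.Lib.P2a19db.Criterion

/-!
Rational sets of matrices, rational families in a group of automorphisms.
-/

set_option autoImplicit false

namespace Pool.Agent.P2a19da

open Module MvPolynomial

section matrices

variable {F : Type*} [Field F] {r : ℕ}

/-- value at `M` of a polynomial in the entries of an `r × r` matrix -/
noncomputable def ev (M : Matrix (Fin r) (Fin r) F) (f : MvPolynomial (Fin r × Fin r) F) : F :=
  MvPolynomial.eval (fun p => M p.1 p.2) f

/-- the ideal of the polynomials vanishing on `Z` -/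
noncomputable def van (Z : Set (Matrix (Fin r) (Fin r) F)) : Ideal (MvPolynomial (Fin r × Fin r) F) where
  carrier := {f | ∀ M ∈ Z, ev M f = 0}
  add_mem' {f g} hf hg M hM := by
    have e : ev M (f + g) = ev M f + ev M g := map_add _ _ _
    rw [e, hf M hM, hg M hM, add_zero]
  zero_mem' M hM := map_zero _
  smul_mem' c f hf M hM := by
    have e : ev M (c • f) = ev M c * ev M f := map_mul _ _ _
    rw [e, hf M hM, mul_zero]

/-- a set of matrices parametrised by rational functions with a common denominator `q` on the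
complement of the zero set of `d` -/
def RatSet (Z : Set (Matrix (Fin r) (Fin r) F)) : Prop :=
  ∃ (N : ℕ) (P : Matrix (Fin r) (Fin r) (MvPolynomial (Fin N) F)) (q d : MvPolynomial (Fin N) F),
    d ≠ 0 ∧ (∀ t : Fin N → F, eval t d ≠ 0 → eval t q ≠ 0) ∧
    Z = {M | ∃ t : Fin N → F, eval t d ≠ 0 ∧ ∀ i j, M i j * eval t q = eval t (P i j)}

end matrices

section groups

variable {F V : Type*} [Field F] [AddCommGroup V] [Module F V]

/-- a family of automorphisms in `G`, parametrised by the points of `F ^ N` with nonzero coordinates,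
whose matrix entries are Laurent polynomials -/
def IsFam (G : Subgroup (V ≃ₗ[F] V)) {N : ℕ} (Φ : (Fin N → F) → (V ≃ₗ[F] V)) : Prop :=
  (∀ s : Fin N → F, (∀ i, s i ≠ 0) → Φ s ∈ G) ∧
    ∀ (φ : V →ₗ[F] F) (x : V), ∃ (p : MvPolynomial (Fin N) F) (k : ℕ), ∀ s : Fin N → F,
      (∀ i, s i ≠ 0) → (∏ i, s i) ^ k * φ (Φ s x) = eval s p

/-- `G` is rationally connected: any two elements lie in a rational family in `G` -/
def RatConn (G : Subgroup (V ≃ₗ[F] V)) : Prop :=
  ∀ g ∈ G, ∀ g' ∈ G, ∃ (N : ℕ) (Φ : (Fin N → F) → (V ≃ₗ[F] V)), IsFam G Φ ∧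
    (∃ s : Fin N → F, (∀ i, s i ≠ 0) ∧ Φ s = g) ∧ (∃ s : Fin N → F, (∀ i, s i ≠ 0) ∧ Φ s = g')

end groups

end Pool.Agent.P2a19da
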