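import Pool.Agent.Lib.P2a19da.Defs

/-!
The matrices of the compressions of a rational family to the range of `a` form a rational set.
-/

set_option autoImplicit false

namespace Pool.Agent.P2a19da

open Module MvPolynomial Pool.Agent.P2a19db

theorem exists_ratset {F V : Type*} [Field F] [Infinite F] [AddCommGroup V] [Module F V]
    [FiniteDimensional F V] {G : Subgroup (V ≃ₗ[F] V)} (hG : RatConn G) {a : Module.End F V} {r : ℕ}
    (b : Basis (Fin r) F (LinearMap.range a)) {g g' : V ≃ₗ[F] V} (hg : g ∈ G) (hg' : g' ∈ G)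
    (hd : (LinearMap.toMatrix b b (mm a (g : V →ₗ[F] V))).det ≠ 0)
    (hd' : (LinearMap.toMatrix b b (mm a (g' : V →ₗ[F] V))).det ≠ 0) :
    ∃ Z : Set (Matrix (Fin r) (Fin r) F), RatSet Z ∧
      (∀ M ∈ Z, M.det ≠ 0 ∧ ∃ k ∈ G, M = LinearMap.toMatrix b b (mm a (k : V →ₗ[F] V))) ∧
      LinearMap.toMatrix b b (mm a (g : V →ₗ[F] V)) ∈ Z ∧
      LinearMap.toMatrix b b (mm a (g' : V →ₗ[F] V)) ∈ Z := by
  classical
  obtain ⟨N, Φ, hΦ, ⟨s0, hs0, rfl⟩, ⟨s1, hs1, rfl⟩⟩ := hG g hg g' hg'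
  choose p k hpk using fun (i j : Fin r) =>
    hΦ.2 ((b.coord i) ∘ₗ a.rangeRestrict) ((b j : LinearMap.range a) : V)
  have hentry : ∀ (s : Fin N → F) (i j : Fin r),
      LinearMap.toMatrix b b (mm a (Φ s : V →ₗ[F] V)) i j
        = ((b.coord i) ∘ₗ a.rangeRestrict) (Φ s ((b j : LinearMap.range a) : V)) := by
    intro s i j
    rw [LinearMap.toMatrix_apply]
    rfl
  have hkK : ∀ i j, k i j ≤ ∑ i, ∑ j, k i j := by
    intro i j
    exact (Finset.single_le_sum (f := fun j => k i j) (fun _ _ => Nat.zero_le _) (Finset.mem_univ j)).trans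
      (Finset.single_le_sum (f := fun i => ∑ j, k i j) (fun _ _ => Nat.zero_le _) (Finset.mem_univ i))
  obtain ⟨K, hK⟩ : ∃ K, K = ∑ i, ∑ j, k i j := ⟨_, rfl⟩
  rw [← hK] at hkK
  let π : MvPolynomial (Fin N) F := ∏ i, X i
  have hπ : ∀ s : Fin N → F, eval s π = ∏ i, s i := by
    intro s
    simp [π]
  let P : Matrix (Fin r) (Fin r) (MvPolynomial (Fin N) F) :=
    Matrix.of fun i j => p i j * π ^ (K - k i j)
  have hP : ∀ s : Fin N → F, (∀ i, s i ≠ 0) → ∀ i j, eval s (P i j) =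
      (∏ i, s i) ^ K * LinearMap.toMatrix b b (mm a (Φ s : V →ₗ[F] V)) i j := by
    intro s hs i j
    change eval s (p i j * π ^ (K - k i j)) = _
    rw [map_mul, map_pow, hπ, ← hpk i j s hs, hentry]
    have e : (∏ i, s i) ^ K = (∏ i, s i) ^ (k i j) * (∏ i, s i) ^ (K - k i j) := by
      rw [← pow_add, Nat.add_sub_cancel' (hkK i j)]
    rw [e]
    ring
  have hdet : ∀ s : Fin N → F, (∀ i, s i ≠ 0) → eval s P.det =
      ((∏ i, s i) ^ K) ^ r * (LinearMap.toMatrix b b (mm a (Φ s : V →ₗ[F] V))).det := by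
    intro s hs
    rw [RingHom.map_det]
    have e : (eval s).mapMatrix P
        = ((∏ i, s i) ^ K) • LinearMap.toMatrix b b (mm a (Φ s : V →ₗ[F] V)) := by
      ext i j
      rw [RingHom.mapMatrix_apply, Matrix.map_apply, hP s hs i j]
      rfl
    rw [e, Matrix.det_smul, Fintype.card_fin]
  have hne : ∀ s : Fin N → F, eval s (π * P.det) ≠ 0 → ∀ i, s i ≠ 0 := by
    intro s hs i h0
    apply hs
    rw [map_mul, hπ, Finset.prod_eq_zero (Finset.mem_univ i) h0, zero_mul]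
  have hpos : ∀ s : Fin N → F, (∀ i, s i ≠ 0) → (∏ i, s i) ≠ 0 := by
    intro s hs
    exact Finset.prod_ne_zero_iff.mpr fun i _ => hs i
  have hdne : ∀ s : Fin N → F, (∀ i, s i ≠ 0) →
      (LinearMap.toMatrix b b (mm a (Φ s : V →ₗ[F] V))).det ≠ 0 → eval s (π * P.det) ≠ 0 := by
    intro s hs h
    rw [map_mul, hπ, hdet s hs]
    exact mul_ne_zero (hpos s hs) (mul_ne_zero (pow_ne_zero _ (pow_ne_zero _ (hpos s hs))) h)
  have hmem : ∀ s : Fin N → F, (∀ i, s i ≠ 0) →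
      (LinearMap.toMatrix b b (mm a (Φ s : V →ₗ[F] V))).det ≠ 0 →
      ∃ t : Fin N → F, eval t (π * P.det) ≠ 0 ∧
        ∀ i j, LinearMap.toMatrix b b (mm a (Φ s : V →ₗ[F] V)) i j * eval t (π ^ K) = eval t (P i j) := by
    intro s hs h
    refine ⟨s, hdne s hs h, fun i j => ?_⟩
    rw [hP s hs, map_pow, hπ, mul_comm]
  refine ⟨{M | ∃ t : Fin N → F, eval t (π * P.det) ≠ 0 ∧ ∀ i j, M i j * eval t (π ^ K) = eval t (P i j)},
    ⟨N, P, π ^ K, π * P.det, ?_, ?_, rfl⟩, ?_, hmem s0 hs0 hd, hmem s1 hs1 hd'⟩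
  · intro h
    apply hdne s0 hs0 hd
    rw [h, map_zero]
  · intro t ht
    rw [map_pow, hπ]
    exact pow_ne_zero _ (hpos t (hne t ht))
  · rintro M ⟨t, ht, hM⟩
    have ht0 := hne t ht
    have hMe : M = LinearMap.toMatrix b b (mm a (Φ t : V →ₗ[F] V)) := by
      ext i j
      have h1 := hM i j
      rw [hP t ht0, map_pow, hπ, mul_comm] at h1
      exact mul_left_cancel₀ (pow_ne_zero _ (hpos t ht0)) h1
    refine ⟨?_, Φ t, hΦ.1 t ht0, hMe⟩
    rw [hMe]
    intro h0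
    apply ht
    rw [map_mul, hdet t ht0, h0, mul_zero, mul_zero]

end Pool.Agent.P2a19da
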