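import Pool.Agent.Lib.P2a19da.Grp
import Pool.Agent.Lib.P2a19da.Fam

/-!
The criterion for rationally connected groups over an algebraically closed field.
-/

set_option autoImplicit false

namespace Pool.Agent.P2a19da

open Module MvPolynomial Pool.Agent.P2a19db

section mat

variable {F W : Type*} [Field F] [AddCommGroup W] [Module F W] {r : ℕ}

/-- the matrix of an automorphism -/
noncomputable def mat (b : Basis (Fin r) F W) : (W ≃ₗ[F] W) →* GL (Fin r) F where
  toFun u := ⟨LinearMap.toMatrix b b (u : W →ₗ[F] W), LinearMap.toMatrix b b (u.symm : W →ₗ[F] W),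
    by
      rw [← LinearMap.toMatrix_mul, ← LinearMap.toMatrix_one b]
      congr 1
      ext v
      exact u.apply_symm_apply v,
    by
      rw [← LinearMap.toMatrix_mul, ← LinearMap.toMatrix_one b]
      congr 1
      ext v
      exact u.symm_apply_apply v⟩
  map_one' := Units.ext (LinearMap.toMatrix_one b)
  map_mul' u v := Units.ext (LinearMap.toMatrix_mul b _ _)

lemma mat_coe (b : Basis (Fin r) F W) (u : W ≃ₗ[F] W) :
    ((mat b u : GL (Fin r) F) : Matrix (Fin r) (Fin r) F) =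
      LinearMap.toMatrix b b (u : W →ₗ[F] W) := rfl

lemma mat_surj (b : Basis (Fin r) F W) (g : GL (Fin r) F) : ∃ u, mat b u = g := by
  have h1 : (g : Matrix (Fin r) (Fin r) F) * ((g⁻¹ : GL (Fin r) F) : Matrix (Fin r) (Fin r) F) =
      1 := by rw [← Units.val_mul, mul_inv_cancel, Units.val_one]
  have h2 : ((g⁻¹ : GL (Fin r) F) : Matrix (Fin r) (Fin r) F) * (g : Matrix (Fin r) (Fin r) F) =
      1 := by rw [← Units.val_mul, inv_mul_cancel, Units.val_one]
  refine ⟨LinearEquiv.ofLinearMap (Matrix.toLin b b (g : Matrix (Fin r) (Fin r) F))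
    (Matrix.toLin b b ((g⁻¹ : GL (Fin r) F) : Matrix (Fin r) (Fin r) F))
    (by rw [← Matrix.toLin_mul, h1, Matrix.toLin_one])
    (by rw [← Matrix.toLin_mul, h2, Matrix.toLin_one]), ?_⟩
  apply Units.ext
  rw [mat_coe]
  exact LinearMap.toMatrix_toLin b b _

lemma det_toMatrix_ne (b : Basis (Fin r) F W) (u : W ≃ₗ[F] W) :
    (LinearMap.toMatrix b b (u : W →ₗ[F] W)).det ≠ 0 :=
  ((mat b u).isUnit.map Matrix.detMonoidHom).ne_zero

end mat

theorem crit_conn {F V : Type*} [Field F] [IsAlgClosed F] [AddCommGroup V] [Module F V]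
    [FiniteDimensional F V] {a : Module.End F V} (ha : ¬ IsUnit a) {G : Subgroup (V ≃ₗ[F] V)}
    (hG : RatConn G) :
    IsAutPair a G ↔ TransOn G (finrank F (LinearMap.range a)) ∧
      TransOn G (finrank F (LinearMap.ker a)) := by
  rw [criterion ha G]
  refine ⟨fun h => ⟨h.1, h.2.1⟩, fun h => ⟨h.1, h.2, ?_⟩⟩
  obtain ⟨h1, h2⟩ := h
  have hK : LinearMap.ker a ≠ ⊥ := fun h => ha ((LinearMap.isUnit_iff_ker_eq_bot a).2 h)
  have hinf : Infinite F := IsAlgClosed.instInfinite
  let b := finBasis F (LinearMap.range a)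
  let X : Set (Matrix (Fin (finrank F (LinearMap.range a))) (Fin (finrank F (LinearMap.range a))) F) :=
    {M | M.det ≠ 0 ∧ ∃ k ∈ G, M = LinearMap.toMatrix b b (mm a (k : V →ₗ[F] V))}
  -- `X` is nonempty
  have hne : X.Nonempty := by
    obtain ⟨σ, hσ⟩ := exists_section a
    have hσinj : Function.Injective σ := fun i j hij => by
      have := congrArg a hij
      rw [hσ, hσ] at this
      exact Subtype.ext this
    obtain ⟨g, hg, hgW⟩ := h1 (LinearMap.range a) (LinearMap.range σ) rfl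
      (LinearMap.finrank_range_of_inj hσinj)
    obtain ⟨u, hu⟩ := mm_equiv (a := a) (x := (g : V →ₗ[F] V)) (by
      intro i hi
      have h3 : g (i : V) ∈ (LinearMap.range a).map (g : V →ₗ[F] V) := ⟨i, i.2, rfl⟩
      rw [hgW] at h3
      obtain ⟨j, hj⟩ := h3
      change a (g (i : V)) = 0 at hi
      rw [← hj, hσ] at hi
      have hj0 : j = 0 := Subtype.ext hi
      rw [hj0, map_zero] at hj
      exact Subtype.ext (g.map_eq_zero_iff.1 hj.symm))
    refine ⟨LinearMap.toMatrix b b (mm a (g : V →ₗ[F] V)), ?_, g, hg, rfl⟩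
    rw [← hu]
    exact det_toMatrix_ne b u
  have hconn : ∀ M ∈ X, ∀ M' ∈ X, ∃ Z : Set (Matrix (Fin (finrank F (LinearMap.range a)))
      (Fin (finrank F (LinearMap.range a))) F), RatSet Z ∧ (∀ N ∈ Z, N ∈ X) ∧ M ∈ Z ∧ M' ∈ Z := by
    rintro M ⟨hM, k, hk, rfl⟩ M' ⟨hM', k', hk', rfl⟩
    obtain ⟨Z, hZ, hZX, hz, hz'⟩ := exists_ratset hG b hk hk' hM hM'
    exact ⟨Z, hZ, hZX, hz, hz'⟩
  have hgen : Subgroup.closure {g : GL (Fin (finrank F (LinearMap.range a))) F |
      (g : Matrix _ _ F) ∈ X} = ⊤ := by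
    rw [eq_top_iff]
    intro g _
    obtain ⟨u, rfl⟩ := mat_surj b g
    set H := Subgroup.closure {g : GL (Fin (finrank F (LinearMap.range a))) F |
      (g : Matrix _ _ F) ∈ X} with hH
    have hU : ∀ g ∈ G, ∀ u : LinearMap.range a ≃ₗ[F] LinearMap.range a,
        (u : LinearMap.range a →ₗ[F] LinearMap.range a) = mm a (g : V →ₗ[F] V) →
          u ∈ H.comap (mat b) := by
      intro g hg u hu
      rw [Subgroup.mem_comap]
      apply Subgroup.subset_closure
      refine ⟨?_, g, hg, ?_⟩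
      · rw [mat_coe]
        exact det_toMatrix_ne b u
      · rw [mat_coe, hu]
    exact gen_top (H.comap (mat b)) (fun p φ y hy => key h1 h2 hK _ hU p φ y hy) u
  -- every automorphism of the range is a product of compressions
  have hall : ∀ u : LinearMap.range a ≃ₗ[F] LinearMap.range a,
      ((u : LinearMap.range a →ₗ[F] LinearMap.range a) : Module.End F _) ∈ Mst a G := by
    intro u
    have h3 := closure_all hne (fun M hM => hM.1) hconn hgen (det_toMatrix_ne b u)
    have h4 : ∀ M ∈ Submonoid.closure X, ∃ μ ∈ Mst a G, LinearMap.toMatrix b b μ = M := by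
      intro M hM
      induction hM using Submonoid.closure_induction with
      | mem M hM =>
        obtain ⟨-, k, hk, rfl⟩ := hM
        exact ⟨_, mm_mem_Mst hk, rfl⟩
      | one => exact ⟨1, one_mem _, LinearMap.toMatrix_one b⟩
      | mul M N _ _ ihM ihN =>
        obtain ⟨μ, hμ, rfl⟩ := ihM
        obtain ⟨ν, hν, rfl⟩ := ihN
        exact ⟨μ * ν, mul_mem hμ hν, LinearMap.toMatrix_mul b _ _⟩
    obtain ⟨μ, hμ, e⟩ := h4 _ h3
    have h5 : μ = (u : LinearMap.range a →ₗ[F] LinearMap.range a) :=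
      (LinearMap.toMatrix b b).injective e
    rw [← h5]
    exact hμ
  -- regularity
  intro g hg hr
  have hrange : LinearMap.range (a * (g : V →ₗ[F] V) * a) = LinearMap.range a := by
    refine Submodule.eq_of_le_of_finrank_eq (by rw [aga_eq]; exact ext_range_le _ _) hr
  have hsurj : Function.Surjective (mm a (g : V →ₗ[F] V)) := by
    intro i
    have hi : (i : V) ∈ LinearMap.range (a * (g : V →ₗ[F] V) * a) := by rw [hrange]; exact i.2
    obtain ⟨v, hv⟩ := hi
    exact ⟨⟨a v, ⟨v, rfl⟩⟩, Subtype.ext hv⟩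
  have hinj : Function.Injective (mm a (g : V →ₗ[F] V)) := LinearMap.injective_iff_surjective.2 hsurj
  let u := LinearEquiv.ofInjectiveEndo (mm a (g : V →ₗ[F] V)) hinj
  have hu : (u : LinearMap.range a →ₗ[F] LinearMap.range a) = mm a (g : V →ₗ[F] V) := rfl
  have hμ := hall (u⁻¹ * u⁻¹ * u⁻¹)
  refine ⟨(g : V →ₗ[F] V) * ext a ((u⁻¹ * u⁻¹ * u⁻¹ : LinearMap.range a ≃ₗ[F] LinearMap.range a) :
    LinearMap.range a →ₗ[F] LinearMap.range a) * (g : V →ₗ[F] V),
    mul_mem (mul_mem (g_mem hg) (ext_mem hμ)) (g_mem hg), ?_⟩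
  rw [aga_eq, ext_mul, mm_ext, ← hu]
  congr 1
  rw [← coe_mul', ← coe_mul', ← coe_mul', ← coe_mul']
  congr 1
  group

end Pool.Agent.P2a19da
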