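import Pool.Agent.Lib.P2a19da.Tw
import Pool.Agent.Lib.P2a19da.Chev
import Pool.Agent.Lib.P2a19da.Cyc

/-!
Monoids of invertible matrices generated by a rationally connected set.
-/

set_option autoImplicit false

namespace Pool.Agent.P2a19da

open MvPolynomial

variable {F : Type*} [Field F] {r : ℕ}

section step

variable [Infinite F] {X : Set (Matrix (Fin r) (Fin r) F)}

lemma det_ne_zero_of_mem (hX : ∀ M ∈ X, M.det ≠ 0) {M : Matrix (Fin r) (Fin r) F}
    (hM : M ∈ Submonoid.closure X) : M.det ≠ 0 := by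
  induction hM using Submonoid.closure_induction with
  | mem x hx => exact hX x hx
  | one => rw [Matrix.det_one]; exact one_ne_zero
  | mul x y _ _ hx hy => rw [Matrix.det_mul]; exact mul_ne_zero hx hy

lemma exists_gl (hX : ∀ M ∈ X, M.det ≠ 0) {M : Matrix (Fin r) (Fin r) F}
    (hM : M ∈ Submonoid.closure X) : ∃ m : GL (Fin r) F, (m : Matrix (Fin r) (Fin r) F) = M :=
  ⟨Matrix.GeneralLinearGroup.mkOfDetNeZero M (det_ne_zero_of_mem hX hM), rfl⟩

/-- a rational set of minimal height -/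
lemma exists_minimal (X : Set (Matrix (Fin r) (Fin r) F)) :
    ∃ Z : Set (Matrix (Fin r) (Fin r) F), RatSet Z ∧ (∀ M ∈ Z, M ∈ Submonoid.closure X) ∧
      ∀ Z' : Set (Matrix (Fin r) (Fin r) F), RatSet Z' → (∀ M ∈ Z', M ∈ Submonoid.closure X) →
        (van Z).height ≤ (van Z').height := by
  let S : Set ℕ∞ := {h | ∃ Z : Set (Matrix (Fin r) (Fin r) F), RatSet Z ∧
    (∀ M ∈ Z, M ∈ Submonoid.closure X) ∧ (van Z).height = h}
  have hS : S.Nonempty := ⟨_, {1}, RatSet.single 1, by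
    intro M hM
    rw [Set.mem_singleton_iff.1 hM]
    exact one_mem _, rfl⟩
  obtain ⟨Z, hZ, hZM, hh⟩ := csInf_mem hS
  refine ⟨Z, hZ, hZM, fun Z' hZ' hZM' => ?_⟩
  rw [hh]
  exact csInf_le (OrderBot.bddBelow S) ⟨Z', hZ', hZM', rfl⟩

lemma prd_mem {Z Z' : Set (Matrix (Fin r) (Fin r) F)} (h : ∀ M ∈ Z, M ∈ Submonoid.closure X)
    (h' : ∀ M ∈ Z', M ∈ Submonoid.closure X) : ∀ M ∈ prd Z Z', M ∈ Submonoid.closure X := by
  rintro _ ⟨A, hA, C, hC, rfl⟩
  exact mul_mem (h A hA) (h' C hC)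

/-- the ideal of `Z * C` does not depend on `C` in a rational set -/
lemma van_prd_of_mem {Z Z' : Set (Matrix (Fin r) (Fin r) F)} (hZ : RatSet Z)
    (hZM : ∀ M ∈ Z, M ∈ Submonoid.closure X)
    (hmin : ∀ Z' : Set (Matrix (Fin r) (Fin r) F), RatSet Z' → (∀ M ∈ Z', M ∈ Submonoid.closure X) →
        (van Z).height ≤ (van Z').height)
    (hX : ∀ M ∈ X, M.det ≠ 0) (hZ' : RatSet Z') (hZM' : ∀ M ∈ Z', M ∈ Submonoid.closure X)
    {C : Matrix (Fin r) (Fin r) F} (hC : C ∈ Z') : van (prd Z {C}) = van (prd Z Z') := by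
  have hp : (van (prd Z Z')).IsPrime := RatSet.prime (RatSet.mul hZ hZ')
  obtain ⟨m, rfl⟩ := exists_gl hX (hZM' C hC)
  symm
  apply Ideal.eq_of_le_of_height_le
  · rintro f hf _ ⟨A, hA, C', rfl, rfl⟩
    exact hf _ ⟨A, hA, _, hC, rfl⟩
  · rw [height_prd]
    exact hmin _ (RatSet.mul hZ hZ') (prd_mem hZM hZM')

end step

section stab

variable [Infinite F]

lemma ev_twR (C M : Matrix (Fin r) (Fin r) F) (f : MvPolynomial (Fin r × Fin r) F) :
    ev M (tw 1 C f) = ev (M * C) f := by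
  rw [ev_tw, one_mul]

/-- the stabiliser of the Zariski closure of `Z` under right multiplication -/
noncomputable def WW (Z : Set (Matrix (Fin r) (Fin r) F)) (hp : (van Z).IsPrime) :
    Subgroup (GL (Fin r) F) where
  carrier := {k | ∀ f ∈ van Z, ∀ z ∈ Z, ev (z * (k : Matrix (Fin r) (Fin r) F)) f = 0}
  mul_mem' {k l} hk hl f hf z hz := by
    have h1 : tw 1 (l : Matrix (Fin r) (Fin r) F) f ∈ van Z := by
      intro z hz
      rw [ev_twR]
      exact hl f hf z hz
    have h2 := hk _ h1 z hz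
    rw [ev_twR] at h2
    rw [Units.val_mul, ← mul_assoc]
    exact h2
  one_mem' f hf z hz := by
    rw [Units.val_one, mul_one]
    exact hf z hz
  inv_mem' {k} hk f hf z hz := by
    have h1 : van Z = van (prd Z {(k : Matrix (Fin r) (Fin r) F)}) := by
      apply Ideal.eq_of_le_of_height_le
      · intro f hf
        rw [van_prd_single]
        exact hk f hf
      · rw [height_prd]
    have h2 : tw 1 ((k⁻¹ : GL (Fin r) F) : Matrix (Fin r) (Fin r) F) f ∈
        van (prd Z {(k : Matrix (Fin r) (Fin r) F)}) := by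
      rw [van_prd_single]
      intro z hz
      rw [ev_twR, mul_assoc, Units.mul_inv, mul_one]
      exact hf z hz
    rw [← h1] at h2
    have h3 := h2 z hz
    rw [ev_twR] at h3
    exact h3

lemma mem_WW {Z : Set (Matrix (Fin r) (Fin r) F)} {hp : (van Z).IsPrime} {k : GL (Fin r) F} :
    k ∈ WW Z hp ↔ ∀ f ∈ van Z, ∀ z ∈ Z, ev (z * (k : Matrix (Fin r) (Fin r) F)) f = 0 := Iff.rfl

/-- the elements all of whose conjugates by the monoid `M` are in `W` -/
def conjCore (W : Subgroup (GL (Fin r) F)) (M : Submonoid (Matrix (Fin r) (Fin r) F)) :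
    Subgroup (GL (Fin r) F) where
  carrier := {k | ∀ m : GL (Fin r) F, (m : Matrix (Fin r) (Fin r) F) ∈ M → m * k * m⁻¹ ∈ W}
  mul_mem' {k l} hk hl m hm := by
    have h := mul_mem (hk m hm) (hl m hm)
    have e : m * k * m⁻¹ * (m * l * m⁻¹) = m * (k * l) * m⁻¹ := by group
    rwa [e] at h
  one_mem' m hm := by
    rw [mul_one, mul_inv_cancel]
    exact one_mem _
  inv_mem' {k} hk m hm := by
    have h := inv_mem (hk m hm)
    have e : (m * k * m⁻¹)⁻¹ = m * k⁻¹ * m⁻¹ := by group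
    rwa [e] at h

lemma mem_conjCore {W : Subgroup (GL (Fin r) F)} {M : Submonoid (Matrix (Fin r) (Fin r) F)}
    {k : GL (Fin r) F} : k ∈ conjCore W M ↔
      ∀ m : GL (Fin r) F, (m : Matrix (Fin r) (Fin r) F) ∈ M → m * k * m⁻¹ ∈ W := Iff.rfl

lemma conj_mem {W : Subgroup (GL (Fin r) F)} {M : Submonoid (Matrix (Fin r) (Fin r) F)}
    {y : GL (Fin r) F} (hy : (y : Matrix (Fin r) (Fin r) F) ∈ M) {w : GL (Fin r) F}
    (hw : w ∈ conjCore W M) : y * w * y⁻¹ ∈ conjCore W M := by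
  intro m hm
  have h := hw (m * y) (by rw [Units.val_mul]; exact mul_mem hm hy)
  have e : m * y * w * (m * y)⁻¹ = m * (y * w * y⁻¹) * m⁻¹ := by group
  rwa [e] at h

/-- the matrices of the elements of a subgroup -/
def mats (W : Subgroup (GL (Fin r) F)) : Set (Matrix (Fin r) (Fin r) F) :=
  {M | ∃ w ∈ W, (w : Matrix (Fin r) (Fin r) F) = M}

/-- `conjCore (WW Z) M` is Zariski closed -/
lemma core_closed {Z : Set (Matrix (Fin r) (Fin r) F)} {hp : (van Z).IsPrime}
    {M : Submonoid (Matrix (Fin r) (Fin r) F)} {k : GL (Fin r) F}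
    (hk : ∀ f ∈ van (mats (conjCore (WW Z hp) M)), ev (k : Matrix (Fin r) (Fin r) F) f = 0) :
    k ∈ conjCore (WW Z hp) M := by
  intro m hm
  rw [mem_WW]
  intro f hf z hz
  have h1 : tw (z * (m : Matrix (Fin r) (Fin r) F)) ((m⁻¹ : GL (Fin r) F) : Matrix (Fin r) (Fin r) F) f ∈
      van (mats (conjCore (WW Z hp) M)) := by
    rintro _ ⟨w, hw, rfl⟩
    rw [ev_tw]
    have h2 := mem_WW.1 (hw m hm) f hf z hz
    rw [Units.val_mul, Units.val_mul] at h2
    rw [← h2]
    congr 1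
    simp only [mul_assoc]
  have h3 := hk _ h1
  rw [ev_tw] at h3
  rw [← h3, Units.val_mul, Units.val_mul]
  congr 1
  simp only [mul_assoc]

lemma conj_mem' {Z : Set (Matrix (Fin r) (Fin r) F)} {hp : (van Z).IsPrime}
    {M : Submonoid (Matrix (Fin r) (Fin r) F)} {y : GL (Fin r) F}
    (hy : (y : Matrix (Fin r) (Fin r) F) ∈ M) {w : GL (Fin r) F}
    (hw : w ∈ conjCore (WW Z hp) M) : y⁻¹ * w * y ∈ conjCore (WW Z hp) M := by
  apply core_closed
  intro f hf
  have h1 : tw ((y⁻¹ : GL (Fin r) F) : Matrix (Fin r) (Fin r) F) (y : Matrix (Fin r) (Fin r) F) f ∈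
      van (mats (conjCore (WW Z hp) M)) := by
    refine comap_le_of_le (twE y y⁻¹) (fun x => rfl) (τ := fun g => tw (y : Matrix (Fin r) (Fin r) F)
      ((y⁻¹ : GL (Fin r) F) : Matrix (Fin r) (Fin r) F) g) ?_ _ ?_
    · rintro g hg _ ⟨w, hw, rfl⟩
      rw [ev_tw, ← Units.val_mul, ← Units.val_mul]
      exact hg _ ⟨_, conj_mem hy hw, rfl⟩
    · change tw _ _ (tw _ _ f) ∈ _
      rw [tw_tw (Units.inv_mul y) (Units.inv_mul y)]
      exact hf
  have h2 := h1 _ ⟨w, hw, rfl⟩
  rw [ev_tw] at h2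
  rw [Units.val_mul, Units.val_mul]
  exact h2

end stab

section num

/-- the value of a polynomial at a matrix with a common denominator -/
lemma exists_num' (P : Matrix (Fin r) (Fin r) (MvPolynomial (Fin r × Fin r) F))
    (q f : MvPolynomial (Fin r × Fin r) F) :
    ∃ (k : ℕ) (H : MvPolynomial (Fin r × Fin r) F), ∀ t M : Matrix (Fin r) (Fin r) F,
      (∀ i j, M i j * ev t q = ev t (P i j)) → ev t q ^ k * ev M f = ev t H := by
  induction f using MvPolynomial.induction_on with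
  | C a =>
    refine ⟨0, C a, fun t M _ => ?_⟩
    rw [ev, ev, ev, eval_C, eval_C, pow_zero, one_mul]
  | add f g hf hg =>
    obtain ⟨k, H, hH⟩ := hf
    obtain ⟨l, H', hH'⟩ := hg
    refine ⟨k + l, H * q ^ l + H' * q ^ k, fun t M hM => ?_⟩
    have e : ev M (f + g) = ev M f + ev M g := map_add _ _ _
    have e' : ev t (H * q ^ l + H' * q ^ k) = ev t H * ev t q ^ l + ev t H' * ev t q ^ k := by
      unfold ev
      rw [map_add, map_mul, map_mul, map_pow, map_pow]
    rw [e, e', ← hH t M hM, ← hH' t M hM]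
    ring
  | mul_X f p hf =>
    obtain ⟨k, H, hH⟩ := hf
    refine ⟨k + 1, H * P p.1 p.2, fun t M hM => ?_⟩
    have e : ev M (f * X p) = ev M f * M p.1 p.2 := by
      rw [ev, map_mul, eval_X]; rfl
    rw [e, ev_mul, ← hH t M hM, ← hM]
    ring

/-- every invertible matrix is a product of two invertible matrices at which `f` does not vanish -/
lemma exists_factor [Infinite F] {f : MvPolynomial (Fin r × Fin r) F} (hf : f ≠ 0)
    {M : Matrix (Fin r) (Fin r) F} (hM : M.det ≠ 0) :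
    ∃ A B : Matrix (Fin r) (Fin r) F, ev A f ≠ 0 ∧ ev B f ≠ 0 ∧ M = A * B := by
  obtain ⟨k, H, hH⟩ := exists_num' (Matrix.of fun i j => ∑ l, MvPolynomial.C (M i l) *
    (Matrix.adjugate (Matrix.of fun i j => (X (i, j) : MvPolynomial (Fin r × Fin r) F)) l j))
    (gdet F r) f
  have hval : ∀ B : Matrix (Fin r) (Fin r) F, B.det ≠ 0 →
      B.det ^ k * ev (M * B⁻¹) f = ev B H := by
    intro B hB
    have h := hH B (M * B⁻¹) ?_
    · rw [ev_gdet] at h
      exact h
    · intro i j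
      have hadj : ∀ l, ev B (Matrix.adjugate (Matrix.of fun i j =>
          (X (i, j) : MvPolynomial (Fin r × Fin r) F)) l j) = B.adjugate l j := by
        intro l
        have h1 := RingHom.map_adjugate (eval fun p : Fin r × Fin r => B p.1 p.2)
          (Matrix.of fun i j => (X (i, j) : MvPolynomial (Fin r × Fin r) F))
        have h2 := congrFun (congrFun h1 l) j
        rw [RingHom.mapMatrix_apply, Matrix.map_apply] at h2
        unfold ev
        rw [h2]
        congr 2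
        ext a b
        simp
      rw [Matrix.of_apply, ev_gdet, ev, map_sum, Matrix.mul_apply, Finset.sum_mul]
      refine Finset.sum_congr rfl fun l _ => ?_
      rw [map_mul, eval_C]
      have h3 := hadj l
      unfold ev at h3
      rw [h3, mul_assoc]
      congr 1
      have h4 : B⁻¹ l j * B.det = B.adjugate l j := by
        have h5 : B.det • B⁻¹ = B.adjugate := by
          rw [Matrix.inv_def, smul_smul, Ring.mul_inverse_cancel _ (isUnit_iff_ne_zero.2 hB), one_smul]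
        rw [← h5, Matrix.smul_apply, smul_eq_mul, mul_comm]
      exact h4
  obtain ⟨A0, hA0⟩ := exists_ev_ne_zero (mul_ne_zero hf gdet_ne_zero)
  rw [ev_mul, ev_gdet] at hA0
  obtain ⟨hA1, hA2⟩ := mul_ne_zero_iff.1 hA0
  have hH0 : H ≠ 0 := by
    rintro rfl
    have hB : (A0⁻¹ * M).det ≠ 0 := by
      rw [Matrix.det_mul]
      refine mul_ne_zero ?_ hM
      exact (Matrix.isUnit_nonsing_inv_det _ (isUnit_iff_ne_zero.2 hA2)).ne_zero
    have h := hval (A0⁻¹ * M) hB
    have e : M * (A0⁻¹ * M)⁻¹ = A0 := by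
      rw [Matrix.mul_inv_rev, Matrix.nonsing_inv_nonsing_inv _ (isUnit_iff_ne_zero.2 hA2), ← mul_assoc,
        Matrix.mul_nonsing_inv _ (isUnit_iff_ne_zero.2 hM), one_mul]
    have e0 : ev (A0⁻¹ * M) (0 : MvPolynomial (Fin r × Fin r) F) = 0 := map_zero _
    rw [e, e0] at h
    exact mul_ne_zero (pow_ne_zero _ hB) hA1 h
  obtain ⟨B, hB⟩ := exists_ev_ne_zero (mul_ne_zero (mul_ne_zero hf hH0) gdet_ne_zero)
  rw [ev_mul, ev_mul, ev_gdet] at hB
  obtain ⟨hB12, hB3⟩ := mul_ne_zero_iff.1 hB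
  obtain ⟨hB1, hB2⟩ := mul_ne_zero_iff.1 hB12
  refine ⟨M * B⁻¹, B, ?_, hB1, ?_⟩
  · rw [← hval B hB3] at hB2
    exact (mul_ne_zero_iff.1 hB2).2
  · rw [mul_assoc, Matrix.nonsing_inv_mul _ (isUnit_iff_ne_zero.2 hB3), mul_one]

end num

/-- The monoid generated by a rationally connected set of invertible matrices generating the general
linear group as a group contains all invertible matrices. -/
theorem closure_all [IsAlgClosed F] {X : Set (Matrix (Fin r) (Fin r) F)} (hne : X.Nonempty)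
    (hX : ∀ M ∈ X, M.det ≠ 0)
    (hconn : ∀ M ∈ X, ∀ M' ∈ X, ∃ Z : Set (Matrix (Fin r) (Fin r) F), RatSet Z ∧ (∀ N ∈ Z, N ∈ X) ∧
      M ∈ Z ∧ M' ∈ Z)
    (hgen : Subgroup.closure {g : GL (Fin r) F | (g : Matrix (Fin r) (Fin r) F) ∈ X} = ⊤)
    {M : Matrix (Fin r) (Fin r) F} (hM : M.det ≠ 0) : M ∈ Submonoid.closure X := by
  have hinf : Infinite F := inferInstance
  obtain ⟨Z, hZ, hZM, hmin⟩ := exists_minimal X
  have hp := RatSet.prime hZ
  have hXM : ∀ N ∈ X, N ∈ Submonoid.closure X := fun N hN => Submonoid.subset_closure hN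
  -- the ideals of `Z * (m * x)` agree
  have key : ∀ m : GL (Fin r) F, (m : Matrix (Fin r) (Fin r) F) ∈ Submonoid.closure X →
      ∀ x x' : GL (Fin r) F, (x : Matrix (Fin r) (Fin r) F) ∈ X → (x' : Matrix (Fin r) (Fin r) F) ∈ X →
      m * (x * x'⁻¹) * m⁻¹ ∈ WW Z hp := by
    intro m hm x x' hx hx'
    obtain ⟨Z', hZ', hZX, h1, h2⟩ := hconn _ hx _ hx'
    have hZm : RatSet (prd Z {(m : Matrix (Fin r) (Fin r) F)}) := RatSet.mul hZ (RatSet.single _)
    have hZmM : ∀ N ∈ prd Z {(m : Matrix (Fin r) (Fin r) F)}, N ∈ Submonoid.closure X :=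
      prd_mem hZM fun N hN => by rw [Set.mem_singleton_iff.1 hN]; exact hm
    have hmin' : ∀ Z' : Set (Matrix (Fin r) (Fin r) F), RatSet Z' →
        (∀ M ∈ Z', M ∈ Submonoid.closure X) →
        (van (prd Z {(m : Matrix (Fin r) (Fin r) F)})).height ≤ (van Z').height := by
      intro Z' h h'
      rw [height_prd]
      exact hmin Z' h h'
    have h3 := (van_prd_of_mem hZm hZmM hmin' hX hZ' (fun N hN => hXM N (hZX N hN)) h1).trans
      (van_prd_of_mem hZm hZmM hmin' hX hZ' (fun N hN => hXM N (hZX N hN)) h2).symm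
    rw [mem_WW]
    intro f hf z hz
    have h4 : tw 1 (((x'⁻¹ * m⁻¹ : GL (Fin r) F)) : Matrix (Fin r) (Fin r) F) f ∈
        van (prd (prd Z {(m : Matrix (Fin r) (Fin r) F)}) {(x' : Matrix (Fin r) (Fin r) F)}) := by
      rw [van_prd_single]
      rintro _ ⟨z, hz, _, rfl, rfl⟩
      rw [ev_twR]
      have e : z * (m : Matrix (Fin r) (Fin r) F) * (x' : Matrix (Fin r) (Fin r) F) *
          ((x'⁻¹ * m⁻¹ : GL (Fin r) F) : Matrix (Fin r) (Fin r) F) = z := by
        have e1 : (m * x' * (x'⁻¹ * m⁻¹) : GL (Fin r) F) = 1 := by group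
        have e2 := congrArg (fun u : GL (Fin r) F => (u : Matrix (Fin r) (Fin r) F)) e1
        simp only [Units.val_mul, Units.val_one] at e2
        rw [Units.val_mul]
        calc _ = z * ((m : Matrix (Fin r) (Fin r) F) * (x' : Matrix (Fin r) (Fin r) F) *
            (((x'⁻¹ : GL (Fin r) F) : Matrix (Fin r) (Fin r) F) *
              ((m⁻¹ : GL (Fin r) F) : Matrix (Fin r) (Fin r) F))) := by simp only [mul_assoc]
          _ = z := by rw [e2, mul_one]
      rw [e]
      exact hf z hz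
    rw [← h3, van_prd_single] at h4
    have h5 := h4 _ ⟨z, hz, _, rfl, rfl⟩
    rw [ev_twR] at h5
    rw [← h5]
    congr 1
    simp only [Units.val_mul, mul_assoc]
  -- the subgroup `W`
  obtain ⟨y0, hy0⟩ := hne
  obtain ⟨y, rfl⟩ : ∃ m : GL (Fin r) F, (m : Matrix (Fin r) (Fin r) F) = y0 := exists_gl hX (hXM _ hy0)
  have hyM := hXM _ hy0
  have hW : conjCore (WW Z hp) (Submonoid.closure X) = ⊤ := by
    refine all_of_cyclic _ y (fun w hw => conj_mem hyM hw) (fun w hw => conj_mem' hyM hw) ?_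
    have hnorm : ∀ j : ℤ, ∀ w ∈ conjCore (WW Z hp) (Submonoid.closure X),
        y ^ j * w * (y ^ j)⁻¹ ∈ conjCore (WW Z hp) (Submonoid.closure X) := by
      intro j
      induction j using Int.induction_on with
      | zero => intro w hw; simpa using hw
      | succ i ih =>
        intro w hw
        have h := ih _ (conj_mem hyM hw)
        have e : y ^ (i : ℤ) * (y * w * y⁻¹) * (y ^ (i : ℤ))⁻¹ =
            y ^ ((i : ℤ) + 1) * w * (y ^ ((i : ℤ) + 1))⁻¹ := by
          rw [zpow_add_one]; group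
        rwa [e] at h
      | pred i ih =>
        intro w hw
        have h := ih _ (conj_mem' hyM hw)
        have e : y ^ (-(i : ℤ)) * (y⁻¹ * w * y) * (y ^ (-(i : ℤ)))⁻¹ =
            y ^ (-(i : ℤ) - 1) * w * (y ^ (-(i : ℤ) - 1))⁻¹ := by
          rw [zpow_sub_one]; group
        rwa [e] at h
    intro g
    have hg : g ∈ Subgroup.closure {g : GL (Fin r) F | (g : Matrix (Fin r) (Fin r) F) ∈ X} := by
      rw [hgen]; trivial
    induction hg using Subgroup.closure_induction with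
    | mem x hx =>
      refine ⟨x * y⁻¹, fun m hm => key m hm x y hx hy0, 1, by group⟩
    | one => exact ⟨1, one_mem _, 0, by simp⟩
    | mul g h _ _ ihg ihh =>
      obtain ⟨w, hw, j, rfl⟩ := ihg
      obtain ⟨w', hw', l, rfl⟩ := ihh
      refine ⟨w * (y ^ j * w' * (y ^ j)⁻¹), mul_mem hw (hnorm j w' hw'), j + l, ?_⟩
      rw [zpow_add]; group
    | inv g _ ihg =>
      obtain ⟨w, hw, j, rfl⟩ := ihg
      refine ⟨y ^ (-j) * w⁻¹ * (y ^ (-j))⁻¹, hnorm (-j) _ (inv_mem hw), -j, ?_⟩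
      group
  -- the ideal of `Z` is zero
  have h0 : van Z = ⊥ := by
    rw [eq_bot_iff]
    intro f hf
    rw [Ideal.mem_bot]
    obtain ⟨z, hz⟩ := hZ.nonempty
    obtain ⟨z, rfl⟩ := exists_gl hX (hZM _ hz)
    apply eq_zero_of_forall
    intro N hN
    have h1 : z⁻¹ * Matrix.GeneralLinearGroup.mkOfDetNeZero N hN ∈
        conjCore (WW Z hp) (Submonoid.closure X) := by rw [hW]; trivial
    have h2 := mem_WW.1 (h1 1 (by rw [Units.val_one]; exact one_mem _)) f hf _ hz
    have e : (z : Matrix (Fin r) (Fin r) F) *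
        ((1 * (z⁻¹ * Matrix.GeneralLinearGroup.mkOfDetNeZero N hN) * 1⁻¹ : GL (Fin r) F) :
          Matrix (Fin r) (Fin r) F) = N := by
      rw [inv_one, mul_one, one_mul, ← Units.val_mul, mul_inv_cancel_left]
      rfl
    rw [e] at h2
    exact h2
  obtain ⟨f, hf0, hf⟩ := chevalley hZ h0
  obtain ⟨A, B, hA, hB, rfl⟩ := exists_factor hf0 hM
  exact mul_mem (hZM _ (hf A hA)) (hZM _ (hf B hB))

end Pool.Agent.P2a19da
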