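import Pool.Agent.Lib.P2a19da.Defs

/-!
Rational sets of matrices: products, points, primality of the vanishing ideal.
-/

set_option autoImplicit false

namespace Pool.Agent.P2a19da

open Module MvPolynomial

variable {F : Type*} [Field F] {r : ℕ} {Z Z' : Set (Matrix (Fin r) (Fin r) F)}

lemma exists_eval_ne_zero [Infinite F] {N : ℕ} {d : MvPolynomial (Fin N) F} (hd : d ≠ 0) :
    ∃ t : Fin N → F, eval t d ≠ 0 := by
  by_contra hc
  push Not at hc
  apply hd
  apply MvPolynomial.funext
  intro t
  rw [hc t, map_zero]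

lemma eval_rename' {N M : ℕ} (f : Fin N → Fin M) (t : Fin M → F) (p : MvPolynomial (Fin N) F) :
    eval t (rename f p) = eval (t ∘ f) p := by
  rw [eval_rename]

theorem RatSet.mul [Infinite F] (hZ : RatSet Z) (hZ' : RatSet Z') :
    RatSet {M | ∃ A ∈ Z, ∃ C ∈ Z', M = A * C} := by
  obtain ⟨N, P, q, d, hd, hdq, rfl⟩ := hZ
  obtain ⟨N', P', q', d', hd', hdq', rfl⟩ := hZ'
  refine ⟨N + N', fun i j => ∑ k, rename (Fin.castAdd N') (P i k) * rename (Fin.natAdd N) (P' k j),
    rename (Fin.castAdd N') q * rename (Fin.natAdd N) q',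
    rename (Fin.castAdd N') d * rename (Fin.natAdd N) d', ?_, ?_, ?_⟩
  · refine mul_ne_zero ?_ ?_
    · exact fun h => hd (rename_injective _ (Fin.castAdd_injective N N')
        (h.trans (map_zero _).symm))
    · exact fun h => hd' (rename_injective _ (Fin.natAdd_injective N' N)
        (h.trans (map_zero _).symm))
  · intro t ht
    rw [map_mul, eval_rename, eval_rename] at ht ⊢
    exact mul_ne_zero (hdq _ (left_ne_zero_of_mul ht)) (hdq' _ (right_ne_zero_of_mul ht))
  · ext M
    simp only [Set.mem_ofPred_eq, map_mul, map_sum, eval_rename]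
    constructor
    · rintro ⟨A, ⟨t, ht, hA⟩, C, ⟨t', ht', hC⟩, rfl⟩
      have e1 : Fin.append t t' ∘ Fin.castAdd N' = t := by
        funext i; exact Fin.append_left _ _ _
      have e2 : Fin.append t t' ∘ Fin.natAdd N = t' := by
        funext i; exact Fin.append_right _ _ _
      refine ⟨Fin.append t t', ?_, ?_⟩
      · rw [e1, e2]; exact mul_ne_zero ht ht'
      · intro i j
        rw [e1, e2, Matrix.mul_apply, Finset.sum_mul]
        refine Finset.sum_congr rfl fun k _ => ?_
        rw [← hA, ← hC]; ring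
    · rintro ⟨t, ht, hM⟩
      have h1 := hdq _ (left_ne_zero_of_mul ht)
      have h2 := hdq' _ (right_ne_zero_of_mul ht)
      refine ⟨fun i j => eval (t ∘ Fin.castAdd N') (P i j) / eval (t ∘ Fin.castAdd N') q,
        ⟨_, left_ne_zero_of_mul ht, fun i j => div_mul_cancel₀ _ h1⟩,
        fun i j => eval (t ∘ Fin.natAdd N) (P' i j) / eval (t ∘ Fin.natAdd N) q',
        ⟨_, right_ne_zero_of_mul ht, fun i j => div_mul_cancel₀ _ h2⟩, ?_⟩
      ext i j
      change M i j = ∑ k, eval (t ∘ Fin.castAdd N') (P i k) / eval (t ∘ Fin.castAdd N') q *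
        (eval (t ∘ Fin.natAdd N) (P' k j) / eval (t ∘ Fin.natAdd N) q')
      have h3 := hM i j
      have h4 : M i j = (∑ k, eval (t ∘ Fin.castAdd N') (P i k) *
          eval (t ∘ Fin.natAdd N) (P' k j)) /
            (eval (t ∘ Fin.castAdd N') q * eval (t ∘ Fin.natAdd N) q') := by
        rw [eq_div_iff (mul_ne_zero h1 h2)]
        exact h3
      rw [h4, Finset.sum_div]
      refine Finset.sum_congr rfl fun k _ => ?_
      rw [div_mul_div_comm]

theorem RatSet.single (M : Matrix (Fin r) (Fin r) F) : RatSet ({M} : Set _) := by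
  refine ⟨0, fun i j => C (M i j), 1, 1, one_ne_zero, ?_, ?_⟩
  · intro t _
    rw [map_one]; exact one_ne_zero
  · ext M'
    simp only [Set.mem_singleton_iff, Set.mem_ofPred_eq, map_one, mul_one, eval_C]
    constructor
    · rintro rfl
      exact ⟨fun _ => 0, one_ne_zero, fun i j => rfl⟩
    · rintro ⟨t, -, h⟩
      ext i j
      exact h i j

theorem RatSet.nonempty [Infinite F] (hZ : RatSet Z) : Z.Nonempty := by
  obtain ⟨N, P, q, d, hd, hdq, rfl⟩ := hZ
  obtain ⟨t, ht⟩ := exists_eval_ne_zero hd
  exact ⟨fun i j => eval t (P i j) / eval t q, t, ht, fun i j => div_mul_cancel₀ _ (hdq t ht)⟩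

/-- the value of a polynomial on the family, up to a power of the denominator -/
lemma exists_num {N : ℕ} (P : Matrix (Fin r) (Fin r) (MvPolynomial (Fin N) F))
    (q : MvPolynomial (Fin N) F) (f : MvPolynomial (Fin r × Fin r) F) :
    ∃ (k : ℕ) (H : MvPolynomial (Fin N) F), ∀ (t : Fin N → F) (M : Matrix (Fin r) (Fin r) F),
      (∀ i j, M i j * eval t q = eval t (P i j)) → eval t q ^ k * ev M f = eval t H := by
  induction f using MvPolynomial.induction_on with
  | C a =>
    refine ⟨0, C a, fun t M _ => ?_⟩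
    rw [ev, eval_C, eval_C, pow_zero, one_mul]
  | add f g hf hg =>
    obtain ⟨k, H, hH⟩ := hf
    obtain ⟨l, H', hH'⟩ := hg
    refine ⟨k + l, H * q ^ l + H' * q ^ k, fun t M hM => ?_⟩
    have e : ev M (f + g) = ev M f + ev M g := map_add _ _ _
    rw [e, map_add, map_mul, map_mul, map_pow, map_pow, ← hH t M hM, ← hH' t M hM]
    ring
  | mul_X f p hf =>
    obtain ⟨k, H, hH⟩ := hf
    refine ⟨k + 1, H * P p.1 p.2, fun t M hM => ?_⟩
    have e : ev M (f * X p) = ev M f * M p.1 p.2 := by
      rw [ev, map_mul, eval_X]; rfl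
    rw [e, map_mul, ← hH t M hM, ← hM]
    ring

theorem RatSet.prime [Infinite F] (hZ : RatSet Z) : (van Z).IsPrime := by
  have hne := hZ.nonempty
  obtain ⟨N, P, q, d, hd, hdq, hZ⟩ := hZ
  refine ⟨?_, ?_⟩
  · intro h
    obtain ⟨M, hM⟩ := hne
    have h1 : (1 : MvPolynomial (Fin r × Fin r) F) ∈ van Z := by rw [h]; trivial
    have h2 : ev M (1 : MvPolynomial (Fin r × Fin r) F) = 0 := h1 M hM
    rw [ev, map_one] at h2
    exact one_ne_zero h2
  · intro f g hfg
    obtain ⟨k, H, hH⟩ := exists_num P q f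
    obtain ⟨l, H', hH'⟩ := exists_num P q g
    have h1 : H * H' * d = 0 := by
      apply MvPolynomial.funext
      intro t
      rw [map_zero, map_mul]
      by_cases ht : eval t d = 0
      · rw [ht, mul_zero]
      · let M : Matrix (Fin r) (Fin r) F := fun i j => eval t (P i j) / eval t q
        have hM : ∀ i j, M i j * eval t q = eval t (P i j) :=
          fun i j => div_mul_cancel₀ _ (hdq t ht)
        have hMZ : M ∈ Z := by
          rw [hZ]; exact ⟨t, ht, hM⟩
        have h2 : ev M (f * g) = 0 := hfg M hMZ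
        have e : ev M (f * g) = ev M f * ev M g := map_mul _ _ _
        rw [e] at h2
        rw [map_mul, ← hH t M hM, ← hH' t M hM]
        rcases mul_eq_zero.1 h2 with h3 | h3
        · rw [h3]; ring
        · rw [h3]; ring
    have h2 : H * H' = 0 := (mul_eq_zero.1 h1).resolve_right hd
    have key : ∀ (f : MvPolynomial (Fin r × Fin r) F) (k : ℕ),
        (∀ (t : Fin N → F) (M : Matrix (Fin r) (Fin r) F),
          (∀ i j, M i j * eval t q = eval t (P i j)) →
          eval t q ^ k * ev M f = eval t (0 : MvPolynomial (Fin N) F)) → f ∈ van Z := by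
      intro f k h M hM
      rw [hZ] at hM
      obtain ⟨t, ht, hM⟩ := hM
      have h3 := h t M hM
      rw [map_zero] at h3
      exact (mul_eq_zero.1 h3).resolve_left (pow_ne_zero _ (hdq t ht))
    rcases mul_eq_zero.1 h2 with h3 | h3
    · left
      exact key f k (by rw [← h3]; exact hH)
    · right
      exact key g l (by rw [← h3]; exact hH')

end Pool.Agent.P2a19da
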