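import Pool.Agent.Lib.P2a19da.Rat

/-!
Linear substitutions in the polynomials in the entries of a matrix.
-/

set_option autoImplicit false

namespace Pool.Agent.P2a19da

open MvPolynomial

variable {F : Type*} [Field F] {r : ℕ}

/-- the substitution `M ↦ A * M * C` -/
noncomputable def tw (A C : Matrix (Fin r) (Fin r) F) :
    MvPolynomial (Fin r × Fin r) F →+* MvPolynomial (Fin r × Fin r) F :=
  eval₂Hom MvPolynomial.C fun p =>
    ∑ l, (∑ k, MvPolynomial.C (A p.1 k) * X (k, l)) * MvPolynomial.C (C l p.2)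

lemma ev_tw (A C M : Matrix (Fin r) (Fin r) F) (f : MvPolynomial (Fin r × Fin r) F) :
    ev M (tw A C f) = ev (A * M * C) f := by
  unfold ev tw
  induction f using MvPolynomial.induction_on with
  | C a => simp
  | add f g hf hg => rw [map_add, map_add, map_add, hf, hg]
  | mul_X f p hf =>
    rw [map_mul, map_mul, map_mul, hf, eval_X]
    congr 1
    rw [eval₂Hom_X', map_sum, Matrix.mul_apply]
    refine Finset.sum_congr rfl fun l _ => ?_
    rw [map_mul, map_sum, eval_C, Matrix.mul_apply]
    congr 1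
    refine Finset.sum_congr rfl fun k _ => ?_
    rw [map_mul, eval_C, eval_X]

lemma ext_ev [Infinite F] {f g : MvPolynomial (Fin r × Fin r) F}
    (h : ∀ M : Matrix (Fin r) (Fin r) F, ev M f = ev M g) : f = g := by
  apply MvPolynomial.funext
  intro s
  exact h (fun i j => s (i, j))

lemma tw_tw [Infinite F] {A C A' C' : Matrix (Fin r) (Fin r) F} (hA : A' * A = 1) (hC : C * C' = 1)
    (f : MvPolynomial (Fin r × Fin r) F) : tw A C (tw A' C' f) = f := by
  apply ext_ev
  intro M
  rw [ev_tw, ev_tw]
  congr 1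
  calc A' * (A * M * C) * C' = (A' * A) * M * (C * C') := by simp only [mul_assoc]
    _ = M := by rw [hA, hC, one_mul, mul_one]

/-- the substitution as an automorphism -/
noncomputable def twE [Infinite F] (A C : GL (Fin r) F) :
    MvPolynomial (Fin r × Fin r) F ≃+* MvPolynomial (Fin r × Fin r) F where
  toFun := tw (A : Matrix (Fin r) (Fin r) F) (C : Matrix (Fin r) (Fin r) F)
  invFun := tw ((A⁻¹ : GL (Fin r) F) : Matrix (Fin r) (Fin r) F)
    ((C⁻¹ : GL (Fin r) F) : Matrix (Fin r) (Fin r) F)
  left_inv f := tw_tw (Units.mul_inv A) (Units.inv_mul C) f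
  right_inv f := tw_tw (Units.inv_mul A) (Units.mul_inv C) f
  map_mul' := map_mul _
  map_add' := map_add _

lemma twE_apply [Infinite F] (A C : GL (Fin r) F) (f : MvPolynomial (Fin r × Fin r) F) :
    twE A C f = tw (A : Matrix (Fin r) (Fin r) F) (C : Matrix (Fin r) (Fin r) F) f := rfl

/-- the generic determinant -/
noncomputable def gdet (F : Type*) [Field F] (r : ℕ) : MvPolynomial (Fin r × Fin r) F :=
  Matrix.det (Matrix.of fun i j => (X (i, j) : MvPolynomial (Fin r × Fin r) F))

lemma ev_gdet (M : Matrix (Fin r) (Fin r) F) : ev M (gdet F r) = M.det := by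
  unfold ev gdet
  rw [RingHom.map_det]
  congr 1
  ext i j
  simp

lemma ev_mul (M : Matrix (Fin r) (Fin r) F) (f g : MvPolynomial (Fin r × Fin r) F) :
    ev M (f * g) = ev M f * ev M g := map_mul _ _ _

lemma gdet_ne_zero : gdet F r ≠ 0 := by
  intro h
  have h1 := ev_gdet (1 : Matrix (Fin r) (Fin r) F)
  rw [h, Matrix.det_one] at h1
  have h2 : ev (1 : Matrix (Fin r) (Fin r) F) 0 = 0 := map_zero _
  rw [h2] at h1
  exact zero_ne_one h1

/-- a nonzero polynomial does not vanish at some matrix -/
lemma exists_ev_ne_zero [Infinite F] {f : MvPolynomial (Fin r × Fin r) F} (hf : f ≠ 0) :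
    ∃ M : Matrix (Fin r) (Fin r) F, ev M f ≠ 0 := by
  by_contra hc
  push Not at hc
  apply hf
  apply ext_ev
  intro M
  rw [hc M]
  exact (map_zero _).symm

/-- a polynomial vanishing at all invertible matrices is zero -/
lemma eq_zero_of_forall [Infinite F] {f : MvPolynomial (Fin r × Fin r) F}
    (h : ∀ M : Matrix (Fin r) (Fin r) F, M.det ≠ 0 → ev M f = 0) : f = 0 := by
  by_contra hf
  obtain ⟨M, hM⟩ := exists_ev_ne_zero (mul_ne_zero hf gdet_ne_zero)
  rw [ev_mul, ev_gdet] at hM
  exact (mul_ne_zero_iff.1 hM).1 (h M (mul_ne_zero_iff.1 hM).2)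

/-- product of sets of matrices -/
def prd (Z Z' : Set (Matrix (Fin r) (Fin r) F)) : Set (Matrix (Fin r) (Fin r) F) :=
  {M | ∃ A ∈ Z, ∃ C ∈ Z', M = A * C}

lemma van_prd_single (Z : Set (Matrix (Fin r) (Fin r) F)) (C : Matrix (Fin r) (Fin r) F)
    (f : MvPolynomial (Fin r × Fin r) F) :
    f ∈ van (prd Z {C}) ↔ ∀ z ∈ Z, ev (z * C) f = 0 := by
  constructor
  · intro h z hz
    exact h _ ⟨z, hz, C, rfl, rfl⟩
  · rintro h _ ⟨z, hz, C', rfl, rfl⟩
    exact h z hz

lemma van_prd_eq [Infinite F] (Z : Set (Matrix (Fin r) (Fin r) F)) (C : GL (Fin r) F) :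
    van (prd Z {(C : Matrix (Fin r) (Fin r) F)}) = (van Z).comap (twE 1 C) := by
  ext f
  rw [van_prd_single, Ideal.mem_comap, twE_apply]
  constructor
  · intro h z hz
    rw [ev_tw, Units.val_one, one_mul]
    exact h z hz
  · intro h z hz
    have := h z hz
    rwa [ev_tw, Units.val_one, one_mul] at this

lemma height_prd [Infinite F] (Z : Set (Matrix (Fin r) (Fin r) F)) (C : GL (Fin r) F) :
    (van (prd Z {(C : Matrix (Fin r) (Fin r) F)})).height = (van Z).height := by
  rw [van_prd_eq]
  exact RingEquiv.height_comap _ _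

/-- An automorphism (or surjective endomorphism) of a Noetherian ring cannot strictly enlarge an
ideal. -/
lemma comap_le_of_le {R : Type*} [CommRing R] [IsNoetherianRing R] {τ : R → R} (e : R ≃+* R)
    (he : ∀ x, e x = τ x) {I : Ideal R} (h : ∀ x ∈ I, τ x ∈ I) (x : R) (hx : τ x ∈ I) : x ∈ I := by
  have hmono : ∀ n : ℕ, ∀ x, (e^[n]) x ∈ I → (e^[n + 1]) x ∈ I := by
    intro n x hx
    rw [Function.iterate_succ_apply']
    rw [he]
    exact h _ hx
  have hmap : ∀ n : ℕ, ∀ x y, (e^[n]) (x + y) = (e^[n]) x + (e^[n]) y := by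
    intro n
    induction n with
    | zero => intro x y; rfl
    | succ n ih =>
      intro x y
      rw [Function.iterate_succ_apply', Function.iterate_succ_apply', Function.iterate_succ_apply', ih, map_add]
  have hmul : ∀ n : ℕ, ∀ x y, (e^[n]) (x * y) = (e^[n]) x * (e^[n]) y := by
    intro n
    induction n with
    | zero => intro x y; rfl
    | succ n ih =>
      intro x y
      rw [Function.iterate_succ_apply', Function.iterate_succ_apply', Function.iterate_succ_apply', ih, map_mul]
  have hzero : ∀ n : ℕ, (e^[n]) 0 = 0 := by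
    intro n
    induction n with
    | zero => rfl
    | succ n ih => rw [Function.iterate_succ_apply', ih, map_zero]
  let J : ℕ → Ideal R := fun n =>
    { carrier := {x | (e^[n]) x ∈ I}
      add_mem' := fun {x y} hx hy => by
        change (e^[n]) (x + y) ∈ I
        rw [hmap]; exact add_mem hx hy
      zero_mem' := by
        change (e^[n]) 0 ∈ I
        rw [hzero]; exact zero_mem _
      smul_mem' := fun c x hx => by
        change (e^[n]) (c * x) ∈ I
        rw [hmul]; exact Ideal.mul_mem_left _ _ hx }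
  have hJ : Monotone J := monotone_nat_of_le_succ fun n x hx => hmono n x hx
  obtain ⟨n, hn⟩ := monotone_stabilizes_iff_noetherian.2 (inferInstance : IsNoetherian R R) ⟨J, hJ⟩
  have hn' : J n = J (n + 1) := hn (n + 1) (Nat.le_succ n)
  have hsurj : Function.Surjective (e^[n]) := e.surjective.iterate n
  obtain ⟨y, rfl⟩ := hsurj x
  have h1 : y ∈ J (n + 1) := by
    change (e^[n + 1]) y ∈ I
    rw [Function.iterate_succ_apply', he]
    exact hx
  rw [← hn'] at h1
  exact h1

end Pool.Agent.P2a19da
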